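import Pool.Agent.W_7742g_h74.Stmt
import Pool.Agent.W_7742d_h74.SD

set_option autoImplicit false

noncomputable section

namespace Pool.Agent.H74H

open Filter Topology ComplexConjugate
open Pool.Agent.H74C (HasMean HasDensity)
open Pool.Agent.H74D (SelfDualSystem)

namespace EssSelfDualSystem

variable {K : Type} [Field K] [NumberField K] (π : EssSelfDualSystem K)

lemma isUnit_of_good {p : ℕ} (hp : p.Prime) (hd : ¬ p ∣ π.level) : IsUnit (p : ZMod π.level) := by
  have : NeZero π.level := ⟨π.level_pos.ne'⟩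
  rw [ZMod.isUnit_iff_coprime]
  exact (Nat.Prime.coprime_iff_not_dvd hp).2 hd

lemma ν_ne {p : ℕ} (hp : p.Prime) (hd : ¬ p ∣ π.level) : π.ν p ≠ 0 := by
  obtain ⟨c, hc⟩ := π.isUnit_of_good hp hd
  rw [← hc]
  exact (IsUnit.map π.ν c.isUnit).ne_zero

lemma ν_pow {p : ℕ} (hp : p.Prime) (hd : ¬ p ∣ π.level) : π.ν p ^ π.level.totient = 1 := by
  have hN : NeZero π.level := ⟨π.level_pos.ne'⟩
  obtain ⟨c, hc⟩ := π.isUnit_of_good hp hd
  rw [← hc, ← map_pow, ← Units.val_pow_eq_pow_val, ZMod.pow_totient, Units.val_one, map_one]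

lemma ν_inv_integral {p : ℕ} (hp : p.Prime) (hd : ¬ p ∣ π.level) : IsIntegral ℤ (π.ν p)⁻¹ := by
  have h1 : π.level.totient ≠ 0 := (Nat.totient_pos.2 π.level_pos).ne'
  refine IsIntegral.of_pow (Nat.pos_of_ne_zero h1) ?_
  rw [inv_pow, π.ν_pow hp hd, inv_one]
  exact isIntegral_one

/-- The self-dual system obtained by the twist. -/
def tw : SelfDualSystem K where
  level := π.level
  level_pos := π.level_pos
  ν := 1
  b := fun p => π.b p / π.ν p
  integral := fun p hp hd => by
    rw [div_eq_mul_inv]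
    exact (π.integral p hp hd).mul (π.ν_inv_integral hp hd)
  positive := fun p hp hd σ => by
    obtain ⟨r, hr, h⟩ := π.positive p hp hd σ
    refine ⟨r, hr, ?_⟩
    have h1 : (1 : DirichletCharacter ℤ π.level) (p : ZMod π.level) = 1 :=
      MulChar.one_apply (π.isUnit_of_good hp hd)
    rw [h1, ← h]
    simp

lemma tw_ad (σ : K →+* ℂ) : π.tw.ad σ = π.ad σ := by
  funext p
  unfold SelfDualSystem.ad ad tw
  simp only
  by_cases hu : IsUnit (p : ZMod π.level)
  · rw [MulChar.one_apply hu]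
    simp
  · have h1 : (1 : DirichletCharacter ℤ π.level) (p : ZMod π.level) = 0 :=
      MulChar.map_nonunit _ hu
    have h2 : π.ν (p : ZMod π.level) = 0 := MulChar.map_nonunit _ hu
    rw [h1, h2, div_zero, map_zero]
    simp

lemma tw_four (σ : K →+* ℂ) : π.tw.four σ = π.four σ := by
  funext p
  unfold SelfDualSystem.four four
  rw [tw_ad]

lemma tw_good (p : ℕ) : π.tw.Good p ↔ π.Good p := Iff.rfl

lemma powTrace_eq (t : ℝ) (k : ℕ) : powTrace t k = H74F.dickson t k := by
  suffices h : powTrace t k = H74F.dickson t k ∧ powTrace t (k + 1) = H74F.dickson t (k + 1) from h.1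
  induction k with
  | zero => exact ⟨rfl, rfl⟩
  | succ k ih =>
    refine ⟨ih.2, ?_⟩
    rw [powTrace, H74F.dickson, ih.1, ih.2]

lemma tw_coeff (σ : K →+* ℂ) (p k : ℕ) : H74F.fourCoeff π.tw σ p k = π.fourCoeff σ p k := by
  unfold H74F.fourCoeff fourCoeff H74F.fourPow fourPow
  rw [tw_ad]
  simp only [powTrace_eq]
  rfl

variable {π}

lemma tw_orthogonal (h : π.Orthogonal) : π.tw.Orthogonal where
  mean_ad := fun σ => by rw [tw_ad]; exact h.mean_ad σ
  mean_four := fun σ => by rw [tw_four]; exact h.mean_four σ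
  mean_ad_four := fun σ τ => by rw [tw_ad, tw_four]; exact h.mean_ad_four σ τ
  ad_ad_same := fun σ τ hs => by
    rw [tw_ad, tw_ad] at hs ⊢; exact h.ad_ad_same σ τ hs
  ad_ad_ne := fun σ τ hs => by
    rw [tw_ad, tw_ad] at hs ⊢; exact h.ad_ad_ne σ τ hs
  four_four_same := fun σ τ hs => by
    rw [tw_four, tw_four] at hs ⊢; exact h.four_four_same σ τ hs
  four_four_ne := fun σ τ hs => by
    rw [tw_four, tw_four] at hs ⊢; exact h.four_four_ne σ τ hs

lemma tw_continuation {σ : K →+* ℂ} (h : π.Continuation σ) : H74F.Continuation π.tw σ := by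
  unfold H74F.Continuation
  simp only [tw_coeff]
  exact h

lemma of_tw_tetrahedral (h : π.tw.Tetrahedral) : π.Tetrahedral := by
  obtain ⟨M, hM, χ, hχ, hz⟩ := h
  refine ⟨M, hM, χ, hχ, fun p hp hd hc => ?_⟩
  have h1 := hz p hp hd hc
  change π.b p / π.ν p = 0 at h1
  rcases div_eq_zero_iff.1 h1 with h2 | h2
  · exact h2
  · exact absurd h2 (π.ν_ne hp.1 hp.2)

lemma of_tw_octahedral (h : π.tw.Octahedral) : π.Octahedral := by
  obtain ⟨M, hM, χ, hχ, hz⟩ := h
  refine ⟨M, hM, χ, hχ, fun p hp hd hc => ?_⟩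
  have h1 := hz p hp hd hc
  change (π.b p / π.ν p) ^ 2 - 1 = 0 at h1
  have h2 := π.ν_ne hp.1 hp.2
  rw [div_pow, sub_eq_zero, div_eq_one_iff_eq (pow_ne_zero _ h2)] at h1
  exact sub_eq_zero.2 h1

lemma of_tw_icosahedral (h : π.tw.Icosahedral) : π.Icosahedral where
  sqrt_five := h.sqrt_five
  values := fun p hp => by
    have := h.values p hp
    simp only [tw_ad] at this
    exact this
  neg_one := fun σ => by have := h.neg_one σ; rwa [tw_ad] at this
  zero := fun σ => by have := h.zero σ; rwa [tw_ad] at this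
  three := fun σ => by have := h.three σ; rwa [tw_ad] at this
  golden := fun σ => by have := h.golden σ; rwa [tw_ad] at this
  golden' := fun σ => by have := h.golden' σ; rwa [tw_ad] at this

/-- The theorem. -/
theorem main (h : π.KimShahidi) : π.Tetrahedral ∨ π.Octahedral ∨ π.Icosahedral := by
  by_cases hT : π.Tetrahedral
  · exact Or.inl hT
  by_cases hO : π.Octahedral
  · exact Or.inr (Or.inl hO)
  obtain ⟨h1, h2⟩ := h hT hO
  have h3 : H74F.KimShahidi π.tw := fun _ _ => ⟨tw_orthogonal h1, fun σ => tw_continuation (h2 σ)⟩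
  rcases H74F.main h3 with h4 | h4 | h4
  · exact absurd (of_tw_tetrahedral h4) hT
  · exact absurd (of_tw_octahedral h4) hO
  · exact Or.inr (Or.inr (of_tw_icosahedral h4))

end EssSelfDualSystem

end Pool.Agent.H74H
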