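import Pool.Agent.W_7742f_h74.Main

/-! Cusp forms on `GL_2` in a Hecke stable space with rational Hecke traces of bounded denominators
are of dihedral, tetrahedral, octahedral or icosahedral type. -/

namespace Pool.Agent.W_7742g_h74.PolyhedralTypeResult

open Pool.Agent.H74G

/-- Let `V` be a finite family of distinct Hecke eigensystems with positive multiplicities (the
eigensystems of a Hecke stable space of cusp forms) such that the traces of all elements of the Hecke
ring `ℤ[T_p, ⟨p⟩]` are rational with bounded denominators, the theorems of Gelbart, Jacquet, Kim and
Shahidi and Selberg orthogonality (`KimShahidi`), and the multiplicity one theorem of Ramakrishnan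
(`MultiplicityOne`) hold.  Then each eigensystem `i` is dihedral, tetrahedral or octahedral, or of
icosahedral type: there is a conjugate eigensystem `j` such that at each prime `|a i p|^2` and
`|a j p|^2` are the same rational integer or they are `(3 + √5) / 2` and `(3 - √5) / 2`, in some order,
and the values `0, 1, 4, (3 + √5) / 2, (3 - √5) / 2` of `|a i p|^2` have the densities
`1/4, 1/3, 1/60, 1/5, 1/5`. -/
theorem result (I : Type) [Fintype I] (V : HeckeFamily I) (hT : V.RationalTraces)
    (hK : V.KimShahidi) (hM : V.MultiplicityOne) (i : I) :
    V.Dihedral i ∨ V.Tetrahedral i ∨ V.Octahedral i ∨ V.Icosahedral i :=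
  HeckeFamily.main V hT hK hM i

end Pool.Agent.W_7742g_h74.PolyhedralTypeResult
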