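import Pool.Agent.W_7742g_h74.Main

/-! Essentially self-dual cusp forms on `GL_3` (and adjoint squares of cusp forms on `GL_2`) with
algebraic integer traces and automorphic conjugates. -/

namespace Pool.Agent.W_7742g_h74.SelfDualThreeResult

open Pool.Agent.H74H

/-- Let `K` be a number field and `π` an essentially self-dual system of Hecke traces on `GL_3` in the
ring of integers of `K`, such that the theorem of Kim and Shahidi, Selberg orthogonality and the
analytic continuation of the Rankin-Selberg `L`-functions of the representations of rank five
(`KimShahidi`) hold for the conjugate systems (this is the case if all conjugates of `π` are the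
systems of Hecke traces of essentially self-dual cuspidal automorphic representations of `GL_3` over
`ℚ`).  Then `π` is of tetrahedral, octahedral or icosahedral type. -/
theorem result (K : Type) [Field K] [NumberField K] (π : EssSelfDualSystem K)
    (hK : π.KimShahidi) : π.Tetrahedral ∨ π.Octahedral ∨ π.Icosahedral :=
  EssSelfDualSystem.main hK

end Pool.Agent.W_7742g_h74.SelfDualThreeResult
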