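import Pool.Agent.W_7742_h74.Stmt

/-! Definitions for the statement: systems of Hecke traces of essentially self-dual cusp forms on
`GL_3`, Selberg orthogonality, the Rankin-Selberg `L`-function of the fourth symmetric power,
icosahedral type. -/

noncomputable section

namespace Pool.Agent.H74H

open Filter Topology ComplexConjugate
open Pool.Agent.H74C (HasMean HasDensity)

/-- An essentially self-dual system of Hecke traces on `GL_3`: algebraic integers `b p` of the number
field `K` for the primes `p` not dividing the level, and a Dirichlet character `ν` with values in `K`,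
such that `1 + σ (b p) / σ (ν p)` is a nonnegative real number for all embeddings `σ` (it is
`|a p|^2` if the system is the adjoint square of the system `a` on `GL_2`, twisted by `ν`). -/
structure EssSelfDualSystem (K : Type) [Field K] [NumberField K] where
  /-- the level -/
  level : ℕ
  level_pos : 0 < level
  /-- the twisting character -/
  ν : DirichletCharacter K level
  /-- the traces -/
  b : ℕ → K
  integral : ∀ p, p.Prime → ¬ p ∣ level → IsIntegral ℤ (b p)
  positive : ∀ p, p.Prime → ¬ p ∣ level → ∀ σ : K →+* ℂ, ∃ r : ℝ, 0 ≤ r ∧ 1 + σ (b p / ν p) = r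

namespace EssSelfDualSystem

variable {K : Type} [Field K] [NumberField K] (π : EssSelfDualSystem K)

/-- The prime `p` does not divide the level. -/
def Good (p : ℕ) : Prop := p.Prime ∧ ¬ p ∣ π.level

/-- The traces `σ (b p) / σ (ν p)` of the conjugate system, divided by the twisting character. -/
def ad (σ : K →+* ℂ) (p : ℕ) : ℝ := (σ (π.b p / π.ν p)).re

/-- The traces `x ^ 2 - x - 1`, `x = ad σ p`, of the largest constituent (of rank five) of the
symmetric square of the conjugate system, divided by the square of the twisting character. -/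
def four (σ : K →+* ℂ) (p : ℕ) : ℝ := π.ad σ p ^ 2 - π.ad σ p - 1

/-- `f` and `g` agree at the primes which do not divide the level. -/
def Same (f g : ℕ → ℝ) : Prop := ∀ p, π.Good p → f p = g p

/-- Selberg orthogonality for the conjugate systems (rank three) and the representations of rank
five.  The functions `ad σ`, `four σ` and `ad σ * four τ` have mean value `0`; `ad σ * ad τ` has mean
value `1` if `ad σ` and `ad τ` agree and `0` otherwise; `four σ * four τ` has mean value `1` if
`four σ` and `four τ` agree and `0` otherwise. -/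
structure Orthogonal : Prop where
  mean_ad : ∀ σ, HasMean (π.ad σ) 0
  mean_four : ∀ σ, HasMean (π.four σ) 0
  mean_ad_four : ∀ σ τ, HasMean (π.ad σ * π.four τ) 0
  ad_ad_same : ∀ σ τ, π.Same (π.ad σ) (π.ad τ) → HasMean (π.ad σ * π.ad τ) 1
  ad_ad_ne : ∀ σ τ, ¬ π.Same (π.ad σ) (π.ad τ) → HasMean (π.ad σ * π.ad τ) 0
  four_four_same : ∀ σ τ, π.Same (π.four σ) (π.four τ) → HasMean (π.four σ * π.four τ) 1
  four_four_ne : ∀ σ τ, ¬ π.Same (π.four σ) (π.four τ) → HasMean (π.four σ * π.four τ) 0

/-- The number `z ^ k + z ^ (-k)` if `t = z + 1 / z`. -/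
def powTrace (t : ℝ) : ℕ → ℝ
  | 0 => 2
  | 1 => t
  | k + 2 => t * powTrace t (k + 1) - powTrace t k

/-- The trace of the `k`-th power of the Satake class (of rank five) with the trace `π.four σ p`: if
the Satake class of rank three has the eigenvalues `1, z, 1 / z` (so that `π.ad σ p = 1 + z + 1 / z`),
then that class has the eigenvalues `z ^ 2, z, 1, 1 / z, 1 / z ^ 2`. -/
def fourPow (σ : K →+* ℂ) (p k : ℕ) : ℝ :=
  1 + powTrace (π.ad σ p - 1) k + powTrace (π.ad σ p - 1) (2 * k)

/-- The coefficient of `p ^ (-ks)` in the logarithm of the (partial) Rankin-Selberg `L`-function of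
the representation of rank five with itself; it is `0` if `p` divides the level. -/
def fourCoeff (σ : K →+* ℂ) (p k : ℕ) : ℝ := by
  classical exact if π.Good p then π.fourPow σ p k ^ 2 / k else 0

/-- The analytic properties of the (partial) Rankin-Selberg `L`-function
`L(s) = exp (∑_p ∑_k (fourPow π σ p k) ^ 2 / (k p ^ (ks)))` of the representation of rank five with
itself, for real `s`: the series converges for `s > 1` (here `k = x.2 + 1`) and `(s - 1) L(s)`
extends to a real analytic function on `s > 0`. -/
def Continuation (σ : K →+* ℂ) : Prop :=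
  (∀ s : ℝ, 1 < s → Summable fun x : Nat.Primes × ℕ =>
    π.fourCoeff σ x.1 (x.2 + 1) / (x.1 : ℝ) ^ ((x.2 + 1) * s)) ∧
  ∃ g : ℝ → ℝ, (∀ s, 0 < s → AnalyticAt ℝ g s) ∧ ∀ s : ℝ, 1 < s → g s = (s - 1) *
    Real.exp (∑' x : Nat.Primes × ℕ, π.fourCoeff σ x.1 (x.2 + 1) / (x.1 : ℝ) ^ ((x.2 + 1) * s))

/-- `f` vanishes at the primes with `χ p ≠ 1`, for a Dirichlet character `χ ≠ 1`. -/
def SelfTwist (f : ℕ → K) : Prop :=
  ∃ M : ℕ, 0 < M ∧ ∃ χ : DirichletCharacter ℂ M, χ ≠ 1 ∧
    ∀ p, π.Good p → ¬ p ∣ M → χ p ≠ 1 → f p = 0

/-- The system is isomorphic to a twist of itself (it is the adjoint square of a representation of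
tetrahedral type, up to a twist). -/
def Tetrahedral : Prop := π.SelfTwist π.b

/-- The system is the adjoint square of a representation of octahedral type, up to a twist. -/
def Octahedral : Prop := π.SelfTwist fun p => π.b p ^ 2 - π.ν p ^ 2

/-- The theorem of Kim and Shahidi (the fourth symmetric power of a cusp form on `GL_2` is cuspidal if
it is not dihedral, tetrahedral or octahedral) and the Rankin-Selberg theory: if the system is not of
tetrahedral or octahedral type, then Selberg orthogonality holds, and the Rankin-Selberg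
`L`-functions of the representations of rank five can be continued. -/
def KimShahidi : Prop :=
  ¬ π.Tetrahedral → ¬ π.Octahedral → π.Orthogonal ∧ ∀ σ, π.Continuation σ

/-- The system is of icosahedral type: `K` contains `√5`; for all primes `p` which do not divide the
level, `ad σ p` is a rational integer for all `σ`, the same one, or it is `(1 + √5) / 2` or
`(1 - √5) / 2` for all `σ`; and for all `σ` the primes with `ad σ p = -1`, `0`, `3`, `(1 + √5) / 2`
and `(1 - √5) / 2` have the densities `1/4`, `1/3`, `1/60`, `1/5` and `1/5`. -/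
structure Icosahedral : Prop where
  sqrt_five : ∃ z : K, z ^ 2 = 5
  values : ∀ p, π.Good p → (∃ n : ℤ, ∀ σ, π.ad σ p = n) ∨
    ∀ σ, π.ad σ p = (1 + √5) / 2 ∨ π.ad σ p = (1 - √5) / 2
  neg_one : ∀ σ, HasDensity (fun p => π.ad σ p = -1) (1 / 4)
  zero : ∀ σ, HasDensity (fun p => π.ad σ p = 0) (1 / 3)
  three : ∀ σ, HasDensity (fun p => π.ad σ p = 3) (1 / 60)
  golden : ∀ σ, HasDensity (fun p => π.ad σ p = (1 + √5) / 2) (1 / 5)
  golden' : ∀ σ, HasDensity (fun p => π.ad σ p = (1 - √5) / 2) (1 / 5)

end EssSelfDualSystem

end Pool.Agent.H74H
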